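import Pool.Agent.H31.MKS.Targets
import Pool.Agent.H42.LF.UM

/-!
The row UMS of the board mks_modules: the limit means.
-/

set_option autoImplicit false

open Finset Filter Topology

namespace Pool.Agent.H11.MKS

open Pool.Agent.H31.MKS
open Pool.Agent.H91.LF (lz Bdd Mean sqw)
open Pool.Agent.H42.LF (hyp_le exists_lim)

variable {d J : ℕ}

theorem avR_add (κ : Ix d J) (x y : ℕ) (f g : (Fin (d + 2) → ℤ) → ℝ) :
    avR d J κ x y (fun ω => f ω + g ω) = avR d J κ x y f + avR d J κ x y g := by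
  unfold avR
  rw [← add_div]
  congr 1
  rw [← Finset.sum_add_distrib]
  refine Finset.sum_congr rfl fun M _ => ?_
  rw [← mul_add, ← add_div]
  congr 2
  rw [← Finset.sum_add_distrib]

theorem avR_smul (κ : Ix d J) (x y : ℕ) (c : ℝ) (f : (Fin (d + 2) → ℤ) → ℝ) :
    avR d J κ x y (fun ω => c * f ω) = c * avR d J κ x y f := by
  unfold avR
  rw [← mul_div_assoc]
  congr 1
  rw [Finset.mul_sum]
  refine Finset.sum_congr rfl fun M _ => ?_
  rw [mul_left_comm]
  congr 1
  rw [← mul_div_assoc]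
  congr 1
  rw [Finset.mul_sum]

theorem avR_nonneg (κ : Ix d J) (x y : ℕ) (f : (Fin (d + 2) → ℤ) → ℝ) (hf : ∀ ω, 0 ≤ f ω) :
    0 ≤ avR d J κ x y f := by
  unfold avR
  refine div_nonneg ?_ ?_
  · refine Finset.sum_nonneg fun M _ => mul_nonneg (by positivity) ?_
    exact div_nonneg (Finset.sum_nonneg fun ω _ => hf ω) (by positivity)
  · exact Finset.sum_nonneg fun M _ => by positivity

theorem avR_one_le (hOBS : K_OBS) (κ : Ix d J) (x y : ℕ) (hx : 0 < x) :
    avR d J κ x y (fun _ => 1) ≤ 3 ^ (d + 2) := by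
  have hcard := (hOBS d J κ).1
  unfold avR
  refine div_le_of_le_mul₀ (Finset.sum_nonneg fun M _ => by positivity) (by positivity) ?_
  rw [Finset.mul_sum]
  refine Finset.sum_le_sum fun M hM => ?_
  have hM1 : 0 < M := lt_of_lt_of_le hx (Finset.mem_Icc.1 hM).1
  have hM2 : (0 : ℝ) < M := by exact_mod_cast hM1
  rw [Finset.sum_const, nsmul_eq_mul, mul_one, mul_comm]
  refine mul_le_mul_of_nonneg_right ?_ (by positivity)
  rw [div_le_iff₀ (by positivity), ← mul_pow]
  exact hcard M hM1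

theorem avR_mono (κ : Ix d J) (x y : ℕ) (f g : (Fin (d + 2) → ℤ) → ℝ) (h : ∀ ω, f ω ≤ g ω) :
    avR d J κ x y f ≤ avR d J κ x y g := by
  have h1 := avR_nonneg κ x y (fun ω => g ω + (-1) * f ω) (fun ω => by linarith [h ω])
  rw [avR_add κ x y g (fun ω => (-1) * f ω), avR_smul] at h1
  linarith

theorem avR_abs_le_one (κ : Ix d J) (x y : ℕ) (f : (Fin (d + 2) → ℤ) → ℝ) (C : ℝ)
    (hf : ∀ ω, |f ω| ≤ C) : |avR d J κ x y f| ≤ C * avR d J κ x y (fun _ => 1) := by
  have h0 : avR d J κ x y (fun _ => C) = C * avR d J κ x y (fun _ => 1) := by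
    have h1 := avR_smul κ x y C (fun _ => 1)
    simp only [mul_one] at h1
    exact h1
  rw [← h0, abs_le]
  constructor
  · have h1 := avR_mono κ x y (fun _ => (-1) * C) f (fun ω => by linarith [(abs_le.1 (hf ω)).1])
    rw [avR_smul κ x y (-1) (fun _ => C)] at h1
    linarith
  · exact avR_mono κ x y f (fun _ => C) (fun ω => (abs_le.1 (hf ω)).2)

theorem avR_abs_le (hOBS : K_OBS) (κ : Ix d J) (x y : ℕ) (hx : 0 < x)
    (f : (Fin (d + 2) → ℤ) → ℝ) (C : ℝ) (hC : 0 ≤ C) (hf : ∀ ω, |f ω| ≤ C) :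
    |avR d J κ x y f| ≤ C * 3 ^ (d + 2) :=
  (avR_abs_le_one κ x y f C hf).trans (mul_le_mul_of_nonneg_left (avR_one_le hOBS κ x y hx) hC)

theorem pf_UMS (hOBS : K_OBS) (hUAS : K_UAS) (hUM : Pool.Agent.H31.DPD.P_UM) : K_UMS := by
  intro d J x y hx hlog
  classical
  set F : Filter ℕ := (Filter.hyperfilter ℕ : Filter ℕ) with hF
  have : F.NeBot := by rw [hF]; infer_instance
  have hFle : F ≤ atTop := hyp_le
  obtain ⟨M0, -⟩ := hUM d x y hx hlog
  -- the limits
  let E : Ix d J → ((Fin (d + 2) → ℤ) → ℝ) → ℝ := fun κ f =>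
    limUnder F (fun j => avR d J κ (x j) (y j) f)
  have hE : ∀ κ f, Bdd f → Tendsto (fun j => avR d J κ (x j) (y j) f) F (𝓝 (E κ f)) := by
    intro κ f hf
    obtain ⟨C, hC⟩ := hf
    refine tendsto_nhds_limUnder ?_
    have hC0 : 0 ≤ C := (abs_nonneg _).trans (hC 0)
    exact exists_lim _ (C * 3 ^ (d + 2)) fun j => avR_abs_le hOBS κ (x j) (y j) (hx j) f C hC0 hC
  have hBadd : ∀ f g : (Fin (d + 2) → ℤ) → ℝ, Bdd f → Bdd g → Bdd (fun ω => f ω + g ω) := by
    rintro f g ⟨C, hC⟩ ⟨D, hD⟩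
    exact ⟨C + D, fun ω => (abs_add_le _ _).trans (add_le_add (hC ω) (hD ω))⟩
  have hBsmul : ∀ (c : ℝ) (f : (Fin (d + 2) → ℤ) → ℝ), Bdd f → Bdd (fun ω => c * f ω) := by
    rintro c f ⟨C, hC⟩
    refine ⟨|c| * C, fun ω => ?_⟩
    rw [abs_mul]
    exact mul_le_mul_of_nonneg_left (hC ω) (abs_nonneg _)
  have hBshift : ∀ (v : Fin (d + 2) → ℤ) (f : (Fin (d + 2) → ℤ) → ℝ), Bdd f →
      Bdd (fun ω => f (ω + v)) := by
    rintro v f ⟨C, hC⟩
    exact ⟨C, fun ω => hC _⟩
  have hBone : Bdd (fun _ : Fin (d + 2) → ℤ => (1 : ℝ)) := ⟨1, fun _ => by simp⟩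
  let μ : Ix d J → ℝ := fun κ => E κ (fun _ => 1)
  have hμ0 : ∀ κ, 0 ≤ μ κ := fun κ =>
    ge_of_tendsto' (hE κ _ hBone) fun j => avR_nonneg _ _ _ _ fun _ => zero_le_one
  have hμ1 : ∀ κ, μ κ ≤ 3 ^ (d + 2) := fun κ =>
    le_of_tendsto' (hE κ _ hBone) fun j => avR_one_le hOBS κ _ _ (hx j)
  have key : ∀ κ : Ix d J, ∃ M : Mean (d + 2), ∀ f, Bdd f →
      Tendsto (fun j => avR d J κ (x j) (y j) f) F (𝓝 (μ κ * M.E f)) := by
    intro κ
    rcases (hμ0 κ).lt_or_eq with hpos | hzero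
    · have hadd : ∀ f g, Bdd f → Bdd g → E κ (fun ω => f ω + g ω) = E κ f + E κ g := by
        intro f g hf hg
        refine tendsto_nhds_unique (hE κ _ (hBadd f g hf hg)) ?_
        refine ((hE κ f hf).add (hE κ g hg)).congr fun j => ?_
        exact (avR_add κ _ _ f g).symm
      have hsmul : ∀ (c : ℝ) f, Bdd f → E κ (fun ω => c * f ω) = c * E κ f := by
        intro c f hf
        refine tendsto_nhds_unique (hE κ _ (hBsmul c f hf)) ?_
        refine ((hE κ f hf).const_mul c).congr fun j => ?_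
        exact (avR_smul κ _ _ c f).symm
      have hshift : ∀ (v : Fin (d + 2) → ℤ) f, Bdd f → E κ (fun ω => f (ω + v)) = E κ f := by
        intro v f hf
        have h1 := (hUAS d J κ x y hx hlog v f hf).mono_left hFle
        have h3 := h1.add (hE κ f hf)
        rw [zero_add] at h3
        refine tendsto_nhds_unique (hE κ _ (hBshift v f hf)) ?_
        refine h3.congr fun j => ?_
        ring
      let M : Mean (d + 2) :=
        { E := fun f => E κ f / μ κ
          add := by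
            intro f g hf hg
            rw [hadd f g hf hg, add_div]
          smul := by
            intro c f hf
            rw [hsmul c f hf, mul_div_assoc]
          nonneg := by
            intro f hf h0
            exact div_nonneg (ge_of_tendsto' (hE κ f hf) fun j => avR_nonneg _ _ _ _ h0) (hμ0 κ)
          one := div_self hpos.ne'
          shift := by
            intro v f hf
            rw [hshift v f hf] }
      refine ⟨M, fun f hf => ?_⟩
      have h1 : μ κ * M.E f = E κ f := mul_div_cancel₀ (E κ f) hpos.ne'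
      rw [h1]
      exact hE κ f hf
    · refine ⟨M0, fun f hf => ?_⟩
      obtain ⟨C, hC⟩ := hf
      rw [← hzero, zero_mul]
      have h1 : Tendsto (fun j => C * avR d J κ (x j) (y j) (fun _ => 1)) F (𝓝 0) := by
        have h2 := (hE κ _ hBone).const_mul C
        have h3 : C * E κ (fun _ => 1) = 0 := by
          have h4 : E κ (fun _ => 1) = 0 := hzero.symm
          rw [h4, mul_zero]
        rw [h3] at h2
        exact h2
      exact squeeze_zero_norm (fun j => by
        rw [Real.norm_eq_abs]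
        exact avR_abs_le_one κ _ _ f C hC) h1
  choose M hM using key
  exact ⟨Filter.hyperfilter ℕ, μ, M, hFle, fun κ => ⟨hμ0 κ, hμ1 κ⟩, fun κ f hf => hM κ f hf⟩

end Pool.Agent.H11.MKS
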